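import Mathlib
import Pool.Agent.H48.Natural

/-!
# A finitely generated amenable group and an open set of actions without Bauer simplex

There are a finitely generated amenable group and a nonempty open set of its actions on the Cantor space such that
for NO action of this open set the set of ergodic measures is closed.
-/

set_option autoImplicit false

namespace Pool.Agent.Results.MP_42c941_an.OpenSetNotBauer

open MeasureTheory Set Filter Topology
open scoped ENNReal NNReal

/-- The Cantor space. -/
abbrev Cantor : Type := ℕ → Bool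

/-- The actions of `Γ` on the Cantor space by homeomorphisms: homomorphisms into the group of
homeomorphisms. -/
def Act (Γ : Type) [Group Γ] : Type := Γ →* (Cantor ≃ₜ Cantor)

/-- The homeomorphism `a(g)`. -/
def Act.at {Γ : Type} [Group Γ] (a : Act Γ) (g : Γ) : Cantor ≃ₜ Cantor :=
  (show Γ →* (Cantor ≃ₜ Cantor) from a) g

/-- The map `a(g)` as a point of `C(Cantor, Cantor)` (topology of uniform convergence). -/
def Act.cm {Γ : Type} [Group Γ] (a : Act Γ) (g : Γ) : C(Cantor, Cantor) := ⟨a.at g, (a.at g).continuous⟩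

/-- The topology of the space of actions: induced from the product over `g` of the spaces of
continuous maps with the topology of uniform convergence. -/
instance (Γ : Type) [Group Γ] : TopologicalSpace (Act Γ) :=
  TopologicalSpace.induced (fun a g => a.cm g) inferInstance

/-- `Γ` is amenable: there is a left invariant mean. -/
def Amenable (Γ : Type) [Group Γ] : Prop :=
  ∃ m : Set Γ → ℝ, m univ = 1 ∧ (∀ A, 0 ≤ m A) ∧ (∀ A B, Disjoint A B → m (A ∪ B) = m A + m B) ∧
    ∀ (g : Γ) (A : Set Γ), m ((fun x => g * x) '' A) = m A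

/-- The multiplication of points by elements of `Γ` through `a`. -/
@[reducible]
def Act.smul {Γ : Type} [Group Γ] (a : Act Γ) : SMul Γ Cantor := ⟨fun g y => a.at g y⟩

/-- The invariant Borel probability measures. -/
def INV {Γ : Type} [Group Γ] (a : Act Γ) : Set (ProbabilityMeasure Cantor) :=
  {μ | ∀ g, MeasurePreserving (a.at g) (μ : Measure Cantor) μ}

/-- The ergodic invariant measures. -/
def EINV {Γ : Type} [Group Γ] (a : Act Γ) : Set (ProbabilityMeasure Cantor) :=
  {μ | @ErgodicSMul Γ Cantor a.smul _ (μ : Measure Cantor)}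

/-- The invariant probability measures which are extreme points of the set of all of them. -/
def ExtINV {Γ : Type} [Group Γ] (a : Act Γ) : Set (ProbabilityMeasure Cantor) :=
  {μ | (μ : Measure Cantor) ∈ extremePoints ℝ≥0∞
    {ν : Measure Cantor | IsProbabilityMeasure ν ∧ ∀ g, MeasurePreserving (a.at g) ν ν}}

/-- `b` agrees with `a` on the elements of `F`, in the first `n` coordinates. -/
def Near {Γ : Type} [Group Γ] (F : Finset Γ) (n : ℕ) (a b : Act Γ) : Prop :=
  ∀ g ∈ F, ∀ y : Cantor, ∀ i < n, b.at g y i = a.at g y i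

section Bridge

variable {Γ : Type} [Group Γ]

private theorem at_one (a : Act Γ) (y : Cantor) : a.at 1 y = y := by
  unfold Act.at
  rw [map_one]
  rfl

private theorem at_mul (a : Act Γ) (g h : Γ) (y : Cantor) : a.at (g * h) y = a.at g (a.at h y) := by
  unfold Act.at
  rw [map_mul]
  rfl

private theorem cm_one (a : Act Γ) : a.cm 1 = ContinuousMap.id Cantor := by
  ext1 y
  exact at_one a y

private theorem cm_mul (a : Act Γ) (g h : Γ) : a.cm (g * h) = (a.cm g).comp (a.cm h) := by
  ext1 y
  exact at_mul a g h y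

private theorem inv_iff (a : Act Γ) (μ : ProbabilityMeasure Cantor) :
    μ ∈ INV a ↔ Pool.Agent.H48.Inv a.cm μ := by
  constructor
  · intro h g
    exact (h g).map_eq
  · intro h g
    exact ⟨(a.at g).continuous.measurable, h g⟩

/-- strictly invariant sets are enough for a countable group -/
private theorem erg_of_strict [Countable Γ] (a : Act Γ) (μ : ProbabilityMeasure Cantor)
    (hi : Pool.Agent.H48.Inv a.cm μ) (he : Pool.Agent.H48.Erg a.cm μ) : μ ∈ EINV a := by
  have hinv := (inv_iff a μ).2 hi
  let _ := a.smul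
  have h1 : SMulInvariantMeasure Γ Cantor (μ : Measure Cantor) :=
    ⟨fun g s hs => (hinv g).measure_preimage hs.nullMeasurableSet⟩
  refine @ErgodicSMul.mk Γ Cantor a.smul _ (μ : Measure Cantor) h1 ?_
  intro s hs hg
  have hg' : ∀ g : Γ, (a.at g) ⁻¹' s =ᵐ[(μ : Measure Cantor)] s := hg
  obtain ⟨t, ht⟩ : ∃ t : Set Cantor, t = ⋂ g : Γ, (a.at g) ⁻¹' s := ⟨_, rfl⟩
  have htm : MeasurableSet t := by
    rw [ht]
    exact MeasurableSet.iInter fun g => (a.at g).continuous.measurable hs
  have hts : t =ᵐ[(μ : Measure Cantor)] s := by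
    have h2 : (⋂ g : Γ, (a.at g) ⁻¹' s) =ᵐ[(μ : Measure Cantor)] ⋂ _g : Γ, s :=
      Filter.EventuallyEq.countable_iInter hg'
    rw [iInter_const] at h2
    rw [ht]
    exact h2
  have htinv : ∀ h : Γ, (a.cm h) ⁻¹' t = t := by
    intro h
    ext y
    rw [ht]
    simp only [mem_preimage, mem_iInter]
    constructor
    · intro hy g
      have := hy (g * h⁻¹)
      have e : a.at (g * h⁻¹) (a.at h y) = a.at g y := by
        rw [← at_mul, inv_mul_cancel_right]
      change a.at (g * h⁻¹) (a.at h y) ∈ s at this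
      rwa [e] at this
    · intro hy g
      have := hy (g * h)
      rw [at_mul] at this
      exact this
  rcases he t htm htinv with h0 | h0
  · exact Filter.EventuallyConst.congr (Filter.eventuallyConst_set'.2 (Or.inl (by
      rw [ae_eq_empty]; exact h0))) hts
  · exact Filter.EventuallyConst.congr (Filter.eventuallyConst_set'.2 (Or.inr (by
      rw [ae_eq_univ, prob_compl_eq_zero_iff htm]; exact h0))) hts

/-- ergodic measures are extreme -/
private theorem ext_of_erg (a : Act Γ) (μ : ProbabilityMeasure Cantor) (h : μ ∈ EINV a) :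
    μ ∈ ExtINV a := by
  have h' : @ErgodicSMul Γ Cantor a.smul _ (μ : Measure Cantor) := h
  have hpres : ∀ g, MeasurePreserving (a.at g) (μ : Measure Cantor) μ := by
    intro g
    refine ⟨(a.at g).continuous.measurable, ?_⟩
    ext s hs
    rw [Measure.map_apply (a.at g).continuous.measurable hs]
    exact h'.toSMulInvariantMeasure.measure_preimage_smul g hs
  change (μ : Measure Cantor) ∈ extremePoints ℝ≥0∞ _
  rw [mem_extremePoints_iff_left]
  refine ⟨⟨inferInstance, hpres⟩, ?_⟩
  rintro ν₁ ⟨hν₁, hi₁⟩ ν₂ ⟨hν₂, hi₂⟩ ⟨c, d, hc, hd, hcd, hμ⟩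
  have hν₁' : IsProbabilityMeasure ν₁ := hν₁
  have hac : ν₁ ≪ (μ : Measure Cantor) := by
    rw [← hμ]
    exact Measure.AbsolutelyContinuous.add_right (Measure.absolutelyContinuous_smul hc.ne') _
  have hconst : ∃ r : ℝ≥0∞, ν₁.rnDeriv μ =ᵐ[(μ : Measure Cantor)] Function.const Cantor r := by
    refine exists_eventuallyEq_const_of_forall_separating MeasurableSet fun U hU => ?_
    have h2 := h'.aeconst_of_forall_preimage_smul_ae_eq
      (s := ν₁.rnDeriv μ ⁻¹' U) (Measure.measurable_rnDeriv _ _ hU) (by
        intro g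
        have h3 := (hi₁ g).rnDeriv_comp_aeEq (hpres g)
        refine (h3.mono fun x hx => ?_).set_eq
        change (ν₁.rnDeriv μ (a.at g x) ∈ U) ↔ _
        change ν₁.rnDeriv μ (a.at g x) = _ at hx
        rw [hx]
        exact Iff.rfl)
    rw [eventuallyConst_set] at h2
    exact h2
  obtain ⟨r, hr⟩ := hconst
  have hld : ν₁.HaveLebesgueDecomposition (μ : Measure Cantor) :=
    Measure.haveLebesgueDecomposition_of_sigmaFinite _ _
  have hsm : ν₁ = r • (μ : Measure Cantor) := by
    ext s hs
    calc
      ν₁ s = ∫⁻ x in s, ν₁.rnDeriv μ x ∂(μ : Measure Cantor) := (Measure.setLIntegral_rnDeriv hac _).symm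
      _ = ∫⁻ _ in s, r ∂(μ : Measure Cantor) :=
        lintegral_congr_ae (hr.filter_mono (ae_mono Measure.restrict_le_self))
      _ = (r • (μ : Measure Cantor)) s := by simp
  have hr1 : r = 1 := by
    have h4 : ν₁ univ = (r • (μ : Measure Cantor)) univ := by rw [← hsm]
    simpa using h4.symm
  rw [hsm, hr1, one_smul]

/-- extreme points are ergodic in the strict sense -/
private theorem strict_of_ext (a : Act Γ) (μ : ProbabilityMeasure Cantor) (h : μ ∈ ExtINV a) :
    Pool.Agent.H48.Erg a.cm μ := by
  have h' : (μ : Measure Cantor) ∈ extremePoints ℝ≥0∞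
    {ν : Measure Cantor | IsProbabilityMeasure ν ∧ ∀ g, MeasurePreserving (a.at g) ν ν} := h
  have key : ∀ {s : Set Cantor}, MeasurableSet s → (∀ g, a.at g ⁻¹' s = s) →
      (μ : Measure Cantor) s ≠ 0 → ProbabilityTheory.cond (μ : Measure Cantor) s ∈
      {ν : Measure Cantor | IsProbabilityMeasure ν ∧ ∀ g, MeasurePreserving (a.at g) ν ν} := by
    intro s hs hg hμs
    refine ⟨ProbabilityTheory.cond_isProbabilityMeasure hμs, fun g => ?_⟩
    have h1 := (h'.1.2 g).restrict_preimage hs
    rw [hg g] at h1
    exact h1.smul_measure _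
  intro s hsm hinv
  have hinv' : ∀ g, a.at g ⁻¹' s = s := hinv
  by_contra H
  push Not at H
  have hs : (μ : Measure Cantor) s ≠ 0 := H.1
  have hs' : (μ : Measure Cantor) sᶜ ≠ 0 := by
    intro h0
    exact H.2 ((prob_compl_eq_zero_iff hsm).1 h0)
  have hcond : ProbabilityTheory.cond (μ : Measure Cantor) s = (μ : Measure Cantor) := by
    apply h'.2 (key hsm hinv' hs)
      (key hsm.compl (fun g => by rw [preimage_compl, hinv' g]) hs')
    refine ⟨(μ : Measure Cantor) s, (μ : Measure Cantor) sᶜ, pos_iff_ne_zero.2 hs,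
      pos_iff_ne_zero.2 hs', ?_, ?_⟩
    · rw [measure_add_measure_compl hsm, measure_univ]
    · rw [ProbabilityTheory.cond, ProbabilityTheory.cond, smul_smul, smul_smul,
        ENNReal.mul_inv_cancel hs (measure_ne_top _ _),
        ENNReal.mul_inv_cancel hs' (measure_ne_top _ _), one_smul, one_smul]
      exact Measure.restrict_add_restrict_compl hsm
  rw [← hcond] at hs'
  rw [ProbabilityTheory.cond_apply hsm] at hs'
  simp at hs'

private theorem ext_inv (a : Act Γ) (μ : ProbabilityMeasure Cantor) (h : μ ∈ ExtINV a) : μ ∈ INV a :=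
  h.1.2

private theorem einv_iff [Countable Γ] (a : Act Γ) (μ : ProbabilityMeasure Cantor) :
    μ ∈ EINV a ↔ (Pool.Agent.H48.Inv a.cm μ ∧ Pool.Agent.H48.Erg a.cm μ) := by
  constructor
  · intro h
    have h1 := ext_of_erg a μ h
    exact ⟨(inv_iff a μ).1 (ext_inv a μ h1), strict_of_ext a μ h1⟩
  · rintro ⟨h1, h2⟩
    exact erg_of_strict a μ h1 h2

private theorem ext_eq [Countable Γ] (a : Act Γ) : EINV a = ExtINV a := by
  ext μ
  constructor
  · exact ext_of_erg a μ
  · intro h
    exact erg_of_strict a μ ((inv_iff a μ).1 (ext_inv a μ h)) (strict_of_ext a μ h)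

private theorem einv_sub (a : Act Γ) (μ : ProbabilityMeasure Cantor) (h : μ ∈ EINV a) : μ ∈ INV a :=
  ext_inv a μ (ext_of_erg a μ h)

/-- the space of actions as a closed set of functions -/
private theorem homeo_act : Nonempty (Act Γ ≃ₜ {a : Γ → C(ℕ → Bool, ℕ → Bool) //
      a 1 = ContinuousMap.id (ℕ → Bool) ∧ ∀ g h : Γ, a (g * h) = (a g).comp (a h)}) := by
  let f : Act Γ → {a : Γ → C(ℕ → Bool, ℕ → Bool) //
      a 1 = ContinuousMap.id (ℕ → Bool) ∧ ∀ g h : Γ, a (g * h) = (a g).comp (a h)} :=
    fun a => ⟨fun g => a.cm g, cm_one a, cm_mul a⟩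
  have hinj : Function.Injective f := by
    intro a b hab
    have h1 : ∀ g, a.cm g = b.cm g := fun g => congrFun (congrArg Subtype.val hab) g
    change (show Γ →* (Cantor ≃ₜ Cantor) from a) = (show Γ →* (Cantor ≃ₜ Cantor) from b)
    ext g y : 2
    have h2 := h1 g
    exact DFunLike.congr_fun h2 y
  have hsurj : Function.Surjective f := by
    rintro ⟨b, hb1, hb2⟩
    have hl : ∀ g y, b g⁻¹ (b g y) = y := by
      intro g y
      have h3 := hb2 g⁻¹ g
      rw [inv_mul_cancel, hb1] at h3
      have h4 := DFunLike.congr_fun h3 y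
      exact h4.symm
    have hr : ∀ g y, b g (b g⁻¹ y) = y := by
      intro g y
      have h3 := hb2 g g⁻¹
      rw [mul_inv_cancel, hb1] at h3
      have h4 := DFunLike.congr_fun h3 y
      exact h4.symm
    let a : Γ →* (Cantor ≃ₜ Cantor) :=
      { toFun := fun g =>
          { toFun := b g
            invFun := b g⁻¹
            left_inv := hl g
            right_inv := hr g
            continuous_toFun := (b g).continuous
            continuous_invFun := (b g⁻¹).continuous }
        map_one' := by
          ext y : 1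
          change b 1 y = y
          rw [hb1]
          rfl
        map_mul' := by
          intro g h
          ext y : 1
          change b (g * h) y = b g (b h y)
          rw [hb2]
          rfl }
    refine ⟨a, ?_⟩
    apply Subtype.ext
    funext g
    ext1 y
    rfl
  have hind : IsInducing f := by
    constructor
    change TopologicalSpace.induced _ _ = TopologicalSpace.induced f
      (TopologicalSpace.induced Subtype.val _)
    rw [induced_compose]
    rfl
  exact ⟨(Equiv.ofBijective f ⟨hinj, hsurj⟩).toHomeomorphOfIsInducing hind⟩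

private theorem baire_act [Countable Γ] : BaireSpace (Act Γ) := by
  obtain ⟨e⟩ := homeo_act (Γ := Γ)
  have := Pool.Agent.H48.baireSpace_act Γ
  exact e.symm.baireSpace

private theorem isOpen_near (F : Finset Γ) (n : ℕ) (a : Act Γ) : IsOpen {b : Act Γ | Near F n a b} := by
  have hcm : ∀ g : Γ, Continuous fun b : Act Γ => b.cm g := by
    intro g
    have hind : Continuous (fun (b : Act Γ) (g : Γ) => b.cm g) := continuous_induced_dom
    exact (continuous_apply (A := fun _ : Γ => C(Cantor, Cantor)) g).comp hind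
  have h1 : ∀ (g : Γ) (i : ℕ), IsOpen {b : Act Γ | ∀ y, b.at g y i = a.at g y i} := by
    intro g i
    have h2 : {b : Act Γ | ∀ y, b.at g y i = a.at g y i} =
        ⋂ v : Bool, (fun b : Act Γ => b.cm g) ⁻¹'
          {f : C(Cantor, Cantor) | MapsTo f {y | a.at g y i = v} {z | z i = v}} := by
      ext b
      simp only [mem_iInter]
      constructor
      · intro hb v y hy
        change b.at g y i = v
        rw [hb y]
        exact hy
      · intro hb y
        exact hb (a.at g y i) (show a.at g y i = a.at g y i from rfl)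
    rw [h2]
    refine isOpen_iInter_of_finite fun v => ?_
    refine IsOpen.preimage (hcm g) (ContinuousMap.isOpen_setOfPred_mapsTo ?_ ?_)
    · have hc : Continuous fun y : Cantor => a.at g y i :=
        (continuous_apply (A := fun _ : ℕ => Bool) i).comp (a.at g).continuous
      exact ((isClosed_discrete ({v} : Set Bool)).preimage hc).isCompact
    · exact (isOpen_discrete {v}).preimage (continuous_apply (A := fun _ : ℕ => Bool) i)
  have h3 : {b : Act Γ | Near F n a b} =
      ⋂ g ∈ F, ⋂ i ∈ Finset.range n, {b : Act Γ | ∀ y, b.at g y i = a.at g y i} := by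
    ext b
    simp only [mem_iInter, Finset.mem_range]
    constructor
    · intro hb g hg i hi y
      exact hb g hg y i hi
    · intro hb g hg y i hi
      exact hb g hg i hi y
  rw [h3]
  exact isOpen_biInter_finset fun g _ => isOpen_biInter_finset fun i _ => h1 g i

/-- a Folner condition gives an invariant mean -/
private theorem mean_of_folner (h : ∀ (F : Finset Γ) (ε : ℝ), 0 < ε → ∃ S : Finset Γ, S.Nonempty ∧
    ∀ g ∈ F, ((((fun x => g * x) '' (S : Set Γ)) \ (S : Set Γ)).ncard : ℝ) < ε * (S.card : ℝ)) :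
    Amenable Γ := by
  classical
  have hpos : ∀ n : ℕ, (0 : ℝ) < 1 / ((n : ℝ) + 1) := fun n => by positivity
  choose S hne hS using fun p : Finset Γ × ℕ => h p.1 (1 / ((p.2 : ℝ) + 1)) (hpos p.2)
  let U : Ultrafilter (Finset Γ × ℕ) := Ultrafilter.of atTop
  have hU : (U : Filter (Finset Γ × ℕ)) ≤ atTop := Ultrafilter.of_le atTop
  let q : Set Γ → Finset Γ × ℕ → ℝ := fun A p =>
    (((S p).filter (fun x => x ∈ A)).card : ℝ) / ((S p).card : ℝ)
  have hc0 : ∀ p, (0 : ℝ) < ((S p).card : ℝ) := fun p => by exact_mod_cast (hne p).card_pos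
  have hq0 : ∀ A p, 0 ≤ q A p := fun A p => by positivity
  have hq1 : ∀ A p, q A p ≤ 1 := fun A p => by
    refine (div_le_one (hc0 p)).2 ?_
    exact_mod_cast Finset.card_filter_le _ _
  have hlim : ∀ A, ∃ l : ℝ, Tendsto (q A) U (𝓝 l) := by
    intro A
    have h1 : ((U.map (q A) : Ultrafilter ℝ) : Filter ℝ) ≤ 𝓟 (Icc (0 : ℝ) 1) := by
      rw [Ultrafilter.coe_map, Filter.le_principal_iff, Filter.mem_map]
      exact Filter.univ_mem' fun p => ⟨hq0 A p, hq1 A p⟩
    obtain ⟨l, _, hl⟩ := isCompact_Icc.ultrafilter_le_nhds (U.map (q A)) h1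
    exact ⟨l, hl⟩
  choose m hm using hlim
  refine ⟨m, ?_, ?_, ?_, ?_⟩
  · refine tendsto_nhds_unique (hm univ) (tendsto_const_nhds.congr fun p => ?_)
    have h1 : @Finset.filter Γ (fun x => x ∈ (univ : Set Γ)) (fun x => Classical.propDecidable _) (S p) =
        S p := by
      ext x
      simp only [Finset.mem_filter, mem_univ, and_true]
    change (1 : ℝ) = ((@Finset.filter Γ (fun x => x ∈ (univ : Set Γ))
      (fun x => Classical.propDecidable _) (S p)).card : ℝ) / ((S p).card : ℝ)
    rw [h1, div_self (hc0 p).ne']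
  · intro A
    exact ge_of_tendsto' (hm A) (hq0 A)
  · intro A B hAB
    refine tendsto_nhds_unique (hm (A ∪ B)) (((hm A).add (hm B)).congr fun p => ?_)
    change q A p + q B p = ((@Finset.filter Γ (fun x => x ∈ A ∪ B)
      (fun x => Classical.propDecidable _) (S p)).card : ℝ) / ((S p).card : ℝ)
    have h1 : @Finset.filter Γ (fun x => x ∈ A ∪ B) (fun x => Classical.propDecidable _) (S p) =
        (S p).filter (fun x => x ∈ A) ∪ (S p).filter (fun x => x ∈ B) := by
      ext x
      simp only [Finset.mem_filter, Finset.mem_union, mem_union]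
      tauto
    have h2 : Disjoint ((S p).filter (fun x => x ∈ A)) ((S p).filter (fun x => x ∈ B)) := by
      rw [Finset.disjoint_left]
      intro x hx hx'
      rw [Finset.mem_filter] at hx hx'
      exact Set.disjoint_left.1 hAB hx.2 hx'.2
    rw [h1, Finset.card_union_of_disjoint h2]
    push_cast
    rw [add_div]
  · intro g A
    have hbound : ∀ p : Finset Γ × ℕ, {g, g⁻¹} ⊆ p.1 →
        |q ((fun x => g * x) '' A) p - q A p| ≤ 1 / ((p.2 : ℝ) + 1) := by
      intro p hp
      have hg := hS p g (hp (by simp))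
      have hg' := hS p g⁻¹ (hp (by simp))
      have e1 : ((S p).filter (fun x => x ∈ (fun x => g * x) '' A)).card ≤
          ((S p).filter (fun x => x ∈ A)).card +
            (((fun x => g⁻¹ * x) '' (S p : Set Γ)) \ (S p : Set Γ)).ncard := by
        have hfin : ((((fun x => g⁻¹ * x) '' (S p : Set Γ)) \ (S p : Set Γ))).Finite :=
          ((S p).finite_toSet.image _).subset sdiff_subset
        rw [Set.ncard_eq_toFinset_card _ hfin]
        have h5 : ((S p).filter (fun x => x ∈ (fun x => g * x) '' A)).card =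
            (((S p).filter (fun x => x ∈ (fun x => g * x) '' A)).image (fun x => g⁻¹ * x)).card :=
          (Finset.card_image_of_injective _ (mul_right_injective g⁻¹)).symm
        rw [h5]
        refine (Finset.card_le_card ?_).trans (Finset.card_union_le _ _)
        intro x hx
        rw [Finset.mem_image] at hx
        obtain ⟨y, hy, rfl⟩ := hx
        rw [Finset.mem_filter] at hy
        obtain ⟨hyS, z, hz, hzy⟩ := hy
        have hz' : g⁻¹ * y = z := by rw [← hzy]; simp
        rw [Finset.mem_union, Finset.mem_filter]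
        by_cases hin : g⁻¹ * y ∈ S p
        · left
          exact ⟨hin, by rw [hz']; exact hz⟩
        · right
          rw [Set.Finite.mem_toFinset]
          exact ⟨⟨y, hyS, rfl⟩, hin⟩
      have e2 : ((S p).filter (fun x => x ∈ A)).card ≤
          ((S p).filter (fun x => x ∈ (fun x => g * x) '' A)).card +
            (((fun x => g * x) '' (S p : Set Γ)) \ (S p : Set Γ)).ncard := by
        have hfin : ((((fun x => g * x) '' (S p : Set Γ)) \ (S p : Set Γ))).Finite :=
          ((S p).finite_toSet.image _).subset sdiff_subset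
        rw [Set.ncard_eq_toFinset_card _ hfin]
        have h5 : ((S p).filter (fun x => x ∈ A)).card =
            (((S p).filter (fun x => x ∈ A)).image (fun x => g * x)).card :=
          (Finset.card_image_of_injective _ (mul_right_injective g)).symm
        rw [h5]
        refine (Finset.card_le_card ?_).trans (Finset.card_union_le _ _)
        intro x hx
        rw [Finset.mem_image] at hx
        obtain ⟨y, hy, rfl⟩ := hx
        rw [Finset.mem_filter] at hy
        rw [Finset.mem_union, Finset.mem_filter]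
        by_cases hin : g * y ∈ S p
        · left
          exact ⟨hin, y, hy.2, rfl⟩
        · right
          rw [Set.Finite.mem_toFinset]
          exact ⟨⟨y, hy.1, rfl⟩, hin⟩
      have e1' : (((S p).filter (fun x => x ∈ (fun x => g * x) '' A)).card : ℝ) ≤
          ((S p).filter (fun x => x ∈ A)).card + 1 / ((p.2 : ℝ) + 1) * (S p).card := by
        have h6 : (((S p).filter (fun x => x ∈ (fun x => g * x) '' A)).card : ℝ) ≤
          ((S p).filter (fun x => x ∈ A)).card +
            (((fun x => g⁻¹ * x) '' (S p : Set Γ)) \ (S p : Set Γ)).ncard := by exact_mod_cast e1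
        linarith
      have e2' : (((S p).filter (fun x => x ∈ A)).card : ℝ) ≤
          ((S p).filter (fun x => x ∈ (fun x => g * x) '' A)).card +
            1 / ((p.2 : ℝ) + 1) * (S p).card := by
        have h6 : (((S p).filter (fun x => x ∈ A)).card : ℝ) ≤
          ((S p).filter (fun x => x ∈ (fun x => g * x) '' A)).card +
            (((fun x => g * x) '' (S p : Set Γ)) \ (S p : Set Γ)).ncard := by exact_mod_cast e2
        linarith
      change |(((S p).filter (fun x => x ∈ (fun x => g * x) '' A)).card : ℝ) / ((S p).card : ℝ) -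
        (((S p).filter (fun x => x ∈ A)).card : ℝ) / ((S p).card : ℝ)| ≤ _
      rw [← sub_div, abs_div, abs_of_pos (hc0 p), div_le_iff₀ (hc0 p), abs_le]
      constructor <;> linarith
    have hz : Tendsto (fun p : Finset Γ × ℕ => 1 / ((p.2 : ℝ) + 1)) U (𝓝 0) := by
      refine Tendsto.mono_left ?_ hU
      rw [← prod_atTop_atTop_eq]
      exact tendsto_one_div_add_atTop_nhds_zero_nat.comp tendsto_snd
    have hd : Tendsto (fun p => q ((fun x => g * x) '' A) p - q A p) U (𝓝 0) := by
      refine squeeze_zero_norm' ?_ hz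
      have hev : ∀ᶠ p : Finset Γ × ℕ in atTop, {g, g⁻¹} ⊆ p.1 := by
        filter_upwards [eventually_ge_atTop (({g, g⁻¹} : Finset Γ), 0)] with p hp
        exact hp.1
      filter_upwards [hU hev] with p hp
      rw [Real.norm_eq_abs]
      exact hbound p hp
    have h7 := tendsto_nhds_unique hd ((hm _).sub (hm A))
    linarith

private theorem exists_act (b : Γ → C(Cantor, Cantor)) (hb1 : b 1 = ContinuousMap.id Cantor)
    (hb2 : ∀ g h : Γ, b (g * h) = (b g).comp (b h)) : ∃ a : Act Γ, ∀ g, a.cm g = b g := by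
  have hl : ∀ g y, b g⁻¹ (b g y) = y := by
    intro g y
    have h3 := hb2 g⁻¹ g
    rw [inv_mul_cancel, hb1] at h3
    exact (DFunLike.congr_fun h3 y).symm
  have hr : ∀ g y, b g (b g⁻¹ y) = y := by
    intro g y
    have h3 := hb2 g g⁻¹
    rw [mul_inv_cancel, hb1] at h3
    exact (DFunLike.congr_fun h3 y).symm
  let a : Γ →* (Cantor ≃ₜ Cantor) :=
    { toFun := fun g =>
        { toFun := b g
          invFun := b g⁻¹
          left_inv := hl g
          right_inv := hr g
          continuous_toFun := (b g).continuous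
          continuous_invFun := (b g⁻¹).continuous }
      map_one' := by
        ext y : 1
        change b 1 y = y
        rw [hb1]
        rfl
      map_mul' := by
        intro g h
        ext y : 1
        change b (g * h) y = b g (b h y)
        rw [hb2]
        rfl }
  refine ⟨a, fun g => ?_⟩
  ext1 y
  rfl

private theorem finite_coord {α : Type} [Finite α] [TopologicalSpace α] [DiscreteTopology α]
    (P : (ℕ → Bool) → α) (hP : Continuous P) :
    ∃ n : ℕ, ∀ x y : ℕ → Bool, (∀ i < n, x i = y i) → P x = P y := by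
  by_contra hcon
  push Not at hcon
  choose x y hxy hne using hcon
  have hk : IsSeqCompact (univ : Set ((ℕ → Bool) × (ℕ → Bool))) := isCompact_univ.isSeqCompact
  obtain ⟨z, _, φ, hφ, hz⟩ := hk (x := fun n => (x n, y n)) (fun n => mem_univ _)
  have hz1 : Tendsto (fun n => x (φ n)) atTop (𝓝 z.1) := (continuous_fst.tendsto z).comp hz
  have hz2 : Tendsto (fun n => y (φ n)) atTop (𝓝 z.2) := (continuous_snd.tendsto z).comp hz
  have he : z.1 = z.2 := by
    funext i
    have h1 : Tendsto (fun n => x (φ n) i) atTop (𝓝 (z.1 i)) :=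
      ((continuous_apply (A := fun _ : ℕ => Bool) i).tendsto z.1).comp hz1
    have h2 : Tendsto (fun n => y (φ n) i) atTop (𝓝 (z.2 i)) :=
      ((continuous_apply (A := fun _ : ℕ => Bool) i).tendsto z.2).comp hz2
    refine tendsto_nhds_unique h1 (h2.congr' ?_)
    filter_upwards [eventually_gt_atTop i] with n hn
    exact (hxy (φ n) i (lt_of_lt_of_le hn hφ.le_apply)).symm
  have h1 : Tendsto (fun n => P (x (φ n))) atTop (𝓝 (P z.1)) := (hP.tendsto z.1).comp hz1
  have h2 : Tendsto (fun n => P (y (φ n))) atTop (𝓝 (P z.2)) := (hP.tendsto z.2).comp hz2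
  rw [nhds_discrete, tendsto_pure] at h1 h2
  obtain ⟨n, hn1, hn2⟩ := (h1.and h2).exists
  exact hne (φ n) (by rw [hn1, hn2, he])

private theorem seq_of_not_closed [Countable Γ] (a : Act Γ)
    (h : ¬ IsClosed {ν : {μ : ProbabilityMeasure (ℕ → Bool) // Pool.Agent.H48.Inv a.cm μ} |
        Pool.Agent.H48.Erg a.cm ν.1}) :
    ∃ (ν : ℕ → ProbabilityMeasure Cantor) (μ : ProbabilityMeasure Cantor),
      (∀ k, ν k ∈ EINV a) ∧ μ ∈ INV a ∧ μ ∉ EINV a ∧ Tendsto ν atTop (𝓝 μ) := by
  by_contra hcon
  push Not at hcon
  apply h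
  rw [← isSeqClosed_iff_isClosed]
  intro x p hx hp
  by_contra hne
  refine hcon (fun k => (x k).1) p.1 (fun k => (einv_iff a _).2 ⟨(x k).2, hx k⟩)
    ((inv_iff a _).2 p.2) (fun hE => hne ((einv_iff a _).1 hE).2) ?_
  exact (continuous_subtype_val.tendsto p).comp hp

end Bridge

/-- **Q1 is false.** There are a finitely generated amenable group `Γ`, an action `a₀` of `Γ` on the
Cantor space, a finite set `F` and `n` such that, for EVERY action `a` which agrees with `a₀` on `F` in
the first `n` coordinates (an open set of actions), the ergodic measures of `a` (they are the extreme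
points of the set of invariant measures) are not closed: some sequence of ergodic measures of `a`
converges to an invariant measure of `a` which is not ergodic. In particular the set of actions with a
closed set of ergodic measures is not comeager. -/
theorem result : ∃ (Γ : Type) (_ : Group Γ), Group.FG Γ ∧ Amenable Γ ∧
    (∃ (a₀ : Act Γ) (F : Finset Γ) (n : ℕ), IsOpen {a : Act Γ | Near F n a₀ a} ∧
      ∀ a : Act Γ, Near F n a₀ a → EINV a ⊆ INV a ∧ EINV a = ExtINV a ∧
        ∃ (ν : ℕ → ProbabilityMeasure Cantor) (μ : ProbabilityMeasure Cantor),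
          (∀ k, ν k ∈ EINV a) ∧ μ ∈ INV a ∧ μ ∉ EINV a ∧ Tendsto ν atTop (𝓝 μ)) ∧
    {a : Act Γ | IsClosed {μ : INV a | (μ : ProbabilityMeasure Cantor) ∈ EINV a}} ∉ residual (Act Γ) := by
  obtain ⟨X, hcl, hne, hX, hC⟩ := Pool.Agent.H48.exists_subshift
  have hcount : Countable (Pool.Agent.H48.Gam hX) := by
    have : (Set.univ : Set (Pool.Agent.H48.Gam hX)) ⊆
        ⋃ k : ℤ, ⋃ R : ℕ, Pool.Agent.H48.tile hX k R := by
      intro g _
      obtain ⟨R, hR⟩ := Pool.Agent.H48.exists_tile hX g
      exact Set.mem_iUnion₂.2 ⟨_, R, hR⟩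
    rw [← Set.countable_univ_iff]
    exact (Set.countable_iUnion fun k => Set.countable_iUnion fun R =>
      (Pool.Agent.H48.tile_finite hX k R).countable).mono this
  refine ⟨Pool.Agent.H48.Gam hX, inferInstance, Pool.Agent.H48.gam_fg hX,
    mean_of_folner (Pool.Agent.H48.gam_folner hX), ?_⟩
  -- the natural action
  have hXc : CompactSpace X := isCompact_iff_compactSpace.1 hcl.isCompact
  have hXn : Nonempty X := hne.to_subtype
  obtain ⟨h⟩ := Pool.Agent.H48.exists_homeo_prod (Pool.Agent.H48.Sp X)
  set P : (ℕ → Bool) → Pool.Agent.H48.Lab := fun y =>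
    ((h.symm y).1.1.1 0, (h.symm y).1.2.1, (h.symm y).1.2.2) with hP
  have hc0 : Continuous fun y => (h.symm y).1 := continuous_fst.comp h.symm.continuous
  have hci : Continuous fun y => (h.symm y).1.1.1 0 :=
    (continuous_apply (A := fun _ : ℤ => Bool) 0).comp
      (continuous_subtype_val.comp (continuous_fst.comp hc0))
  have hcf : Continuous fun y => (h.symm y).1.2.1 :=
    continuous_fst.comp (continuous_snd.comp hc0)
  have hcf' : Continuous fun y => (h.symm y).1.2.2 :=
    continuous_snd.comp (continuous_snd.comp hc0)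
  have hPc : Continuous P := hci.prodMk (hcf.prodMk hcf')
  -- `P` depends on finitely many coordinates
  obtain ⟨n, hn⟩ := finite_coord P hPc
  obtain ⟨a₀, ha₀⟩ : ∃ a₀ : Act (Pool.Agent.H48.Gam hX), ∀ g, a₀.cm g = Pool.Agent.H48.natAct hX h g := by
    obtain ⟨a₀, ha₀⟩ := exists_act (Pool.Agent.H48.natAct hX h) (Pool.Agent.H48.natAct_one hX h)
      (Pool.Agent.H48.natAct_mul hX h)
    exact ⟨a₀, ha₀⟩
  classical
  let F : Finset (Pool.Agent.H48.Gam hX) := {Pool.Agent.H48.gT hX} ∪
    (Finset.univ : Finset (Bool × Equiv.Perm (Fin 3))).image (fun p => Pool.Agent.H48.gS hX p.1 p.2) ∪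
    (Finset.univ : Finset Bool).image (fun j => Pool.Agent.H48.gR hX j)
  have hFT : Pool.Agent.H48.gT hX ∈ F := by simp [F]
  have hFS : ∀ j σ, Pool.Agent.H48.gS hX j σ ∈ F := by
    intro j σ
    refine Finset.mem_union_left _ (Finset.mem_union_right _ ?_)
    exact Finset.mem_image.2 ⟨(j, σ), Finset.mem_univ _, rfl⟩
  have hFR : ∀ j, Pool.Agent.H48.gR hX j ∈ F := by
    intro j
    refine Finset.mem_union_right _ ?_
    exact Finset.mem_image.2 ⟨j, Finset.mem_univ _, rfl⟩
  have hPnat : ∀ a : Act (Pool.Agent.H48.Gam hX), Near F n a₀ a → ∀ g ∈ F, ∀ y,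
      P (a.cm g y) = P (Pool.Agent.H48.natAct hX h g y) := by
    intro a ha g hg y
    rw [← ha₀ g]
    exact hn _ _ fun i hi => ha g hg y i hi
  have hnc : ∀ a : Act (Pool.Agent.H48.Gam hX), Near F n a₀ a →
      ¬ IsClosed {ν : {μ : ProbabilityMeasure (ℕ → Bool) // Pool.Agent.H48.Inv a.cm μ} |
        Pool.Agent.H48.Erg a.cm ν.1} := by
    intro a ha hacl
    refine Pool.Agent.H48.not_closed hX hcl hC a.cm (cm_one a) (cm_mul a) (fun y => (P y).1)
      (fun y => (P y).2.1) (fun y => (P y).2.2) ?_ hci hacl
    let _ := Pool.Agent.H48.actOf a.cm (cm_one a) (cm_mul a)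
    exact
      { T_f := fun y => by
          change (P (a.cm (Pool.Agent.H48.gT hX) y)).2.1 = (P y).2.1
          rw [hPnat a ha _ hFT y]
          change (h.symm (h (_, _))).1.2.1 = (h.symm y).1.2.1
          rw [Homeomorph.symm_apply_apply]
          rfl
        T_f' := fun y => by
          change (P (a.cm (Pool.Agent.H48.gT hX) y)).2.2 = (P y).2.2
          rw [hPnat a ha _ hFT y]
          change (h.symm (h (_, _))).1.2.2 = (h.symm y).1.2.2
          rw [Homeomorph.symm_apply_apply]
          rfl
        S_f := fun j σ y => by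
          change (P (a.cm (Pool.Agent.H48.gS hX j σ) y)).2.1 =
            if (P y).1 = j then σ (P y).2.1 else (P y).2.1
          rw [hPnat a ha _ (hFS j σ) y]
          change (h.symm (h (_, _))).1.2.1 = if (h.symm y).1.1.1 0 = j then σ (h.symm y).1.2.1 else
            (h.symm y).1.2.1
          rw [Homeomorph.symm_apply_apply]
          change (Pool.Agent.H48.ee 0 j σ (h.symm y).1.1) (h.symm y).1.2.1 = _
          unfold Pool.Agent.H48.ee
          split_ifs <;> rfl
        S_f' := fun j σ y => by
          change (P (a.cm (Pool.Agent.H48.gS hX j σ) y)).2.2 = (P y).2.2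
          rw [hPnat a ha _ (hFS j σ) y]
          change (h.symm (h (_, _))).1.2.2 = (h.symm y).1.2.2
          rw [Homeomorph.symm_apply_apply]
          rfl
        R_f := fun j y => by
          change (P (a.cm (Pool.Agent.H48.gR hX j) y)).2.1 = (P y).2.1
          rw [hPnat a ha _ (hFR j) y]
          change (h.symm (h (_, _))).1.2.1 = (h.symm y).1.2.1
          rw [Homeomorph.symm_apply_apply]
          rfl
        R_f' := fun j y => by
          change (P (a.cm (Pool.Agent.H48.gR hX j) y)).2.2 = if (P y).1 = j then !(P y).2.2 else (P y).2.2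
          rw [hPnat a ha _ (hFR j) y]
          change (h.symm (h (_, _))).1.2.2 = if (h.symm y).1.1.1 0 = j then !(h.symm y).1.2.2 else
            (h.symm y).1.2.2
          rw [Homeomorph.symm_apply_apply]
          change (Pool.Agent.H48.ee' 0 j (h.symm y).1.1) (h.symm y).1.2.2 = _
          unfold Pool.Agent.H48.ee'
          split_ifs <;> rfl }
  have hseq : ∀ a : Act (Pool.Agent.H48.Gam hX), Near F n a₀ a →
      ∃ (ν : ℕ → ProbabilityMeasure Cantor) (μ : ProbabilityMeasure Cantor),
        (∀ k, ν k ∈ EINV a) ∧ μ ∈ INV a ∧ μ ∉ EINV a ∧ Tendsto ν atTop (𝓝 μ) :=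
    fun a ha => seq_of_not_closed a (hnc a ha)
  refine ⟨⟨a₀, F, n, isOpen_near F n a₀, fun a ha => ⟨einv_sub a, ext_eq a, hseq a ha⟩⟩, ?_⟩
  intro hres
  have hbaire := baire_act (Γ := Pool.Agent.H48.Gam hX)
  have hdense := dense_of_mem_residual hres
  obtain ⟨a, ha, hacl⟩ := hdense.inter_open_nonempty _ (isOpen_near F n a₀)
    ⟨a₀, fun g _ y i _ => rfl⟩
  obtain ⟨ν, μ, hν, hμ, hμn, hlim⟩ := hseq a ha
  have hacl' : IsClosed {μ : INV a | (μ : ProbabilityMeasure Cantor) ∈ EINV a} := hacl
  let ν' : ℕ → INV a := fun k => ⟨ν k, einv_sub a (ν k) (hν k)⟩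
  have hlim' : Tendsto ν' atTop (𝓝 (⟨μ, hμ⟩ : INV a)) := tendsto_subtype_rng.2 hlim
  have hmem : (⟨μ, hμ⟩ : INV a) ∈ {μ : INV a | (μ : ProbabilityMeasure Cantor) ∈ EINV a} :=
    hacl'.mem_of_tendsto hlim' (Eventually.of_forall fun k => hν k)
  exact hμn hmem

end Pool.Agent.Results.MP_42c941_an.OpenSetNotBauer
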